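import Pool.Agent.Lib.MP_6e94a1_ag.CovFinal
import Pool.Agent.Lib.MP_6e94a1_ag.CovCanon

/-!
# A conic preserving local map of a Fano threefold which does not extend

`X = zeros (eqX Q) ⊂ ℙ^7` is the double cover of the quintic del Pezzo threefold `V₅ ⊂ ℙ^6`
branched along the intersection of `V₅` with the quadric of `Q` (a special Gushel-Mukai
threefold): a Fano threefold of Picard number one with `-K_X = O_X(1)`, so that the rational
curves of anticanonical degree two on it are exactly its smooth conics.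
-/

open scoped LinearAlgebra.Projectivization
open Pool.Agent.Lib.MP_6e94a1_ag

namespace Pool.Agent.Results.MP_6e94a1_ag.DoubleCover

theorem result : ∃ Q : Matrix (Fin 7) (Fin 7) ℂ,
    IsSmoothOfCodim (eqX Q) 4 ∧
    HasGaussDegree (eqX Q) 4 3 ∧
    @IsIrreducible _ (zariski (Fin 8)) (cone (eqX Q)) ∧
    ∃ M : Set (Fin 8 × Fin 3 → ℂ), IsComponent (conics (zeros (eqX Q))) M ∧
      Covers (eqX Q) M ∧
      ∃ (U₁ U₂ : Set (ℙ ℂ (Fin 8 → ℂ))) (φ : ℙ ℂ (Fin 8 → ℂ) → ℙ ℂ (Fin 8 → ℂ)),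
        IsOpenIn (zeros (eqX Q)) U₁ ∧ IsOpenIn (zeros (eqX Q)) U₂ ∧ IsConn U₁ ∧ IsConn U₂ ∧
        IsBiholomorphic φ U₁ U₂ ∧
        (∀ c ∈ M, ∃ c' ∈ M, φ '' (curve c ∩ U₁) = curve c' ∩ U₂) ∧
        ¬ ∃ Φ : ℙ ℂ (Fin 8 → ℂ) → ℙ ℂ (Fin 8 → ℂ), IsBiregularAut (zeros (eqX Q)) Φ ∧
          ∀ p ∈ U₁, Φ p = φ p := by
  obtain ⟨Q, hQ⟩ := exists_genQ
  exact ⟨Q, smooth_of_good hQ.smooth, canon_of_good hQ.smooth, irr_cone hQ.hQ, MM Q,
    MM_component hQ.hQ hQ.hA hQ.hC hQ.hD,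
    covers cone_f0 (by simp [inv6, f0]) hQ.h5, cover_main hQ⟩

end Pool.Agent.Results.MP_6e94a1_ag.DoubleCover
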