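import Pool.Agent.Lib.MP_6e94a1_ag.Global2

/-!
# Line preserving local maps of the quintic del Pezzo threefold extend

The threefold `V5 ⊂ ℙ^6` is the quintic del Pezzo threefold: a Fano threefold of Picard number one
and index two, `-K = 2H`, so that the rational curves of anticanonical degree two on it are exactly
its lines, which form one irreducible family covering it.
-/

open scoped LinearAlgebra.Projectivization
open Pool.Agent.Lib.MP_6e94a1_ag Set

namespace Pool.Agent.Results.MP_6e94a1_ag.QuinticDelPezzo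

theorem result (U₁ U₂ : Set (ℙ ℂ (Fin 7 → ℂ)))
    (hU₁ : IsOpenIn V5 U₁) (hU₂ : IsOpenIn V5 U₂) (hc₁ : IsConn U₁)
    (φ : ℙ ℂ (Fin 7 → ℂ) → ℙ ℂ (Fin 7 → ℂ)) (hφ : IsBiholomorphic φ U₁ U₂)
    (hlines : ∀ C, IsLine C → C ⊆ V5 → ∃ C', IsLine C' ∧ C' ⊆ V5 ∧
      φ '' (C ∩ U₁) = C' ∩ U₂) :
    ∃ g : (Fin 7 → ℂ) ≃ₗ[ℂ] (Fin 7 → ℂ),
      Projectivization.map (g : (Fin 7 → ℂ) →ₗ[ℂ] (Fin 7 → ℂ)) g.injective '' V5 = V5 ∧
      ∀ p ∈ U₁, φ p = Projectivization.map (g : (Fin 7 → ℂ) →ₗ[ℂ] (Fin 7 → ℂ)) g.injective p := by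
  obtain ⟨h1, h2, ψ, h3, h4, h5, h6⟩ := hφ
  obtain ⟨h, hh, hh'⟩ := main_V5 hU₁ hU₂ hc₁ h1 h3 h5 h6 h2 h4 hlines
  let g : (Fin 7 → ℂ) ≃ₗ[ℂ] (Fin 7 → ℂ) :=
    LinearEquiv.ofLinearMap (rho h) (rho h⁻¹)
      (by ext1 v; exact LinearMap.ext fun w => rho_rho_inv hh _)
      (by ext1 v; exact LinearMap.ext fun w => rho_inv_rho hh _)
  refine ⟨g, ?_, fun p hp => hh' p hp⟩
  ext p
  constructor
  · rintro ⟨q, hq, rfl⟩
    induction q using Projectivization.ind with
    | h v hv =>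
      rw [Projectivization.map_mk, mem_V5]
      exact ((mem_V5 hv).1 hq).rho h
  · intro hp
    induction p using Projectivization.ind with
    | h v hv =>
      have hne : rho h⁻¹ v ≠ 0 := by
        intro hz
        apply hv
        rw [← rho_rho_inv hh v, hz, map_zero]
      refine ⟨Projectivization.mk ℂ (rho h⁻¹ v) hne, ?_, ?_⟩
      · rw [mem_V5]
        exact ((mem_V5 hv).1 hp).rho _
      · rw [Projectivization.map_mk]
        congr 1
        exact rho_rho_inv hh v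

end Pool.Agent.Results.MP_6e94a1_ag.QuinticDelPezzo
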