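import Pool.Agent.Lib.MP_6e94a1_ag.Quad13

/-!
# Line preserving local maps of smooth intersections of two quadrics in five-space extend

A smooth complete intersection `X ⊂ ℙ^5` of two quadrics is a Fano threefold of Picard number one
and index two, `-K = 2H`, so that the rational curves of anticanonical degree two on it are exactly
its lines, which form one irreducible family covering it.
-/

open scoped LinearAlgebra.Projectivization
open Pool.Agent.Lib.MP_6e94a1_ag Set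

namespace Pool.Agent.Results.MP_6e94a1_ag.TwoQuadricsThreefolds

theorem result (A B A' B' : Matrix (Fin 6) (Fin 6) ℂ)
    (hA : A.IsSymm) (hB : B.IsSymm) (hA' : A'.IsSymm) (hB' : B'.IsSymm)
    (hs : SmoothPencil A B) (hs' : SmoothPencil A' B')
    (U₁ U₂ : Set (ℙ ℂ (Fin 6 → ℂ)))
    (hU₁ : IsOpenIn (TwoQuadrics A B) U₁) (hU₂ : IsOpenIn (TwoQuadrics A' B') U₂)
    (hc₁ : IsConn U₁)
    (φ : ℙ ℂ (Fin 6 → ℂ) → ℙ ℂ (Fin 6 → ℂ)) (hφ : IsBiholomorphic φ U₁ U₂)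
    (hlines : ∀ C, IsLine C → C ⊆ TwoQuadrics A B →
      ∃ C', IsLine C' ∧ C' ⊆ TwoQuadrics A' B' ∧ φ '' (C ∩ U₁) = C' ∩ U₂) :
    ∃ g : (Fin 6 → ℂ) ≃ₗ[ℂ] (Fin 6 → ℂ),
      Projectivization.map (g : (Fin 6 → ℂ) →ₗ[ℂ] (Fin 6 → ℂ)) g.injective ''
        TwoQuadrics A B = TwoQuadrics A' B' ∧
      ∀ p ∈ U₁, φ p = Projectivization.map (g : (Fin 6 → ℂ) →ₗ[ℂ] (Fin 6 → ℂ)) g.injective p :=
  main_two_quadrics hA hB hA' hB' hs hs' hU₁ hU₂ hc₁ hφ hlines

end Pool.Agent.Results.MP_6e94a1_ag.TwoQuadricsThreefolds
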